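import Mathlib

/-!
Zero-free sequences with few subset sums in abelian groups.
-/

set_option autoImplicit false

namespace Pool.Agent.Q326.ZS

variable {G : Type*} [AddCommGroup G] [DecidableEq G]

/-- no nonempty submultiset has sum zero -/
def ZeroFree (s : Multiset G) : Prop := ∀ t ≤ s, t ≠ 0 → t.sum ≠ 0

/-- the set of the subset sums -/
def SS (s : Multiset G) : Finset G := (s.powerset.map Multiset.sum).toFinset

lemma mem_SS {s : Multiset G} {y : G} : y ∈ SS s ↔ ∃ t ≤ s, t.sum = y := by
  unfold SS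
  rw [Multiset.mem_toFinset, Multiset.mem_map]
  simp only [Multiset.mem_powerset]

lemma zero_mem (s : Multiset G) : (0 : G) ∈ SS s := mem_SS.mpr ⟨0, Multiset.zero_le _, Multiset.sum_zero⟩

lemma sum_mem (s : Multiset G) : s.sum ∈ SS s := mem_SS.mpr ⟨s, le_rfl, rfl⟩

lemma SS_mono {s t : Multiset G} (h : t ≤ s) : SS t ⊆ SS s := by
  intro y hy
  obtain ⟨u, hu, rfl⟩ := mem_SS.mp hy
  exact mem_SS.mpr ⟨u, hu.trans h, rfl⟩

lemma SS_cons (x : G) (t : Multiset G) (y : G) :
    y ∈ SS (x ::ₘ t) ↔ y ∈ SS t ∨ ∃ z ∈ SS t, y = x + z := by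
  unfold SS
  rw [Multiset.mem_toFinset, Multiset.powerset_cons, Multiset.map_add, Multiset.mem_add,
    Multiset.mem_toFinset]
  apply or_congr Iff.rfl
  simp only [Multiset.mem_map, Multiset.mem_toFinset, exists_exists_and_eq_and, Multiset.sum_cons]
  constructor
  · rintro ⟨u, hu, rfl⟩
    exact ⟨u, hu, rfl⟩
  · rintro ⟨u, hu, rfl⟩
    exact ⟨u, hu, rfl⟩

lemma symm_mem {s : Multiset G} {y : G} (h : y ∈ SS s) : s.sum - y ∈ SS s := by
  obtain ⟨u, hu, rfl⟩ := mem_SS.mp h
  obtain ⟨v, rfl⟩ := Multiset.le_iff_exists_add.mp hu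
  refine mem_SS.mpr ⟨v, Multiset.le_add_left _ _, ?_⟩
  rw [Multiset.sum_add]
  abel

lemma ZeroFree.mono {s t : Multiset G} (h : ZeroFree s) (ht : t ≤ s) : ZeroFree t :=
  fun u hu => h u (hu.trans ht)

lemma ZeroFree.add_ne {x : G} {t : Multiset G} (h : ZeroFree (x ::ₘ t)) {z : G} (hz : z ∈ SS t) :
    x + z ≠ 0 := by
  obtain ⟨u, hu, rfl⟩ := mem_SS.mp hz
  have := h (x ::ₘ u) (Multiset.cons_le_cons x hu) (Multiset.cons_ne_zero)
  rwa [Multiset.sum_cons] at this

lemma ZeroFree.sum_notMem {x : G} {t : Multiset G} (h : ZeroFree (x ::ₘ t)) :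
    (x ::ₘ t).sum ∉ SS t := by
  intro hm
  have h1 := symm_mem hm
  rw [Multiset.sum_cons] at h1
  have h2 : t.sum - (x + t.sum) = -x := by abel
  rw [h2] at h1
  exact h.add_ne h1 (by abel)

/-- the structure: positive multiples of one element with small total -/
def Behaving (s : Multiset G) : Prop :=
  ∃ (g : G) (L : Multiset ℕ), (∀ n ∈ L, 0 < n) ∧ s = L.map (fun n => n • g) ∧
    L.sum < addOrderOf g ∧ ∀ y, y ∈ SS s ↔ ∃ i ≤ L.sum, y = i • g

lemma card_le_sum {L : Multiset ℕ} (h : ∀ n ∈ L, 0 < n) : Multiset.card L ≤ L.sum := by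
  induction L using Multiset.induction_on with
  | empty => simp
  | cons a L ih =>
    rw [Multiset.card_cons, Multiset.sum_cons]
    have h1 := h a (Multiset.mem_cons_self a L)
    have h2 := ih (fun n hn => h n (Multiset.mem_cons_of_mem hn))
    omega

/-- adding an element to a behaving sequence -/
lemma extend {x : G} {t : Multiset G} (hz : ZeroFree (x ::ₘ t)) (ht : Behaving t)
    (hc : (SS (x ::ₘ t)).card < 2 * (Multiset.card t + 1)) : Behaving (x ::ₘ t) := by
  obtain ⟨g, L, hL, rfl, hlt, hSS⟩ := ht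
  have hx : ∃ i ≤ L.sum, ∃ j ≤ L.sum, i • g = x + j • g := by
    by_contra hcon
    push Not at hcon
    have hsub : (Finset.range (L.sum + 1)).image (fun i => i • g) ∪
        (Finset.range (L.sum + 1)).image (fun i => x + i • g) ⊆
        SS (x ::ₘ L.map (fun n => n • g)) := by
      intro y hy
      rw [SS_cons]
      rw [Finset.mem_union, Finset.mem_image, Finset.mem_image] at hy
      rcases hy with ⟨i, hi, rfl⟩ | ⟨i, hi, rfl⟩
      · left
        exact (hSS _).mpr ⟨i, by rw [Finset.mem_range] at hi; omega, rfl⟩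
      · right
        exact ⟨i • g, (hSS _).mpr ⟨i, by rw [Finset.mem_range] at hi; omega, rfl⟩, rfl⟩
    have hinj : Set.InjOn (fun i : ℕ => i • g) (Finset.range (L.sum + 1) : Set ℕ) := by
      intro i hi j hj hij
      rw [Finset.coe_range, Set.mem_Iio] at hi hj
      have := (nsmul_injOn_Iio_addOrderOf (x := g)) (by rw [Set.mem_Iio]; omega)
        (by rw [Set.mem_Iio]; omega) hij
      exact this
    have h1 := Finset.card_le_card hsub
    rw [Finset.card_union_of_disjoint, Finset.card_image_of_injOn hinj, Finset.card_image_of_injOn,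
      Finset.card_range] at h1
    · have h2 := card_le_sum hL
      rw [Multiset.card_map] at hc
      omega
    · intro i hi j hj hij
      exact hinj hi hj (add_left_cancel hij)
    · rw [Finset.disjoint_left]
      intro y hy hy2
      obtain ⟨i, hi, rfl⟩ := Finset.mem_image.mp hy
      obtain ⟨j, hj, h⟩ := Finset.mem_image.mp hy2
      rw [Finset.mem_range] at hi hj
      exact hcon i (by omega) j (by omega) h.symm
  obtain ⟨i, hi, j, hj, hij⟩ := hx
  rcases le_or_gt i j with h | h
  · exfalso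
    have h1 : x + (j - i) • g = 0 := by
      have h2 : j • g = (j - i) • g + i • g := by rw [← add_nsmul, Nat.sub_add_cancel h]
      rw [h2, ← add_assoc] at hij
      exact add_right_cancel (b := i • g) (by rw [zero_add]; exact hij.symm)
    exact hz.add_ne ((hSS _).mpr ⟨j - i, by omega, rfl⟩) h1
  · have hxe : x = (i - j) • g := by
      have h2 : i • g = (i - j) • g + j • g := by rw [← add_nsmul, Nat.sub_add_cancel h.le]
      rw [h2] at hij
      exact (add_right_cancel hij).symm
    set y := i - j with hy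
    have hy0 : 0 < y := by omega
    have hyS : y ≤ L.sum := by omega
    have hlt2 : y + L.sum < addOrderOf g := by
      by_contra hcon
      push Not at hcon
      refine hz.add_ne ((hSS _).mpr ⟨addOrderOf g - y, by omega, rfl⟩) ?_
      rw [hxe, ← add_nsmul, Nat.add_sub_cancel' (by omega), addOrderOf_nsmul_eq_zero]
    refine ⟨g, y ::ₘ L, ?_, ?_, ?_, ?_⟩
    · intro n hn
      rcases Multiset.mem_cons.mp hn with rfl | hn
      · exact hy0
      · exact hL n hn
    · rw [Multiset.map_cons, hxe]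
    · rw [Multiset.sum_cons]; exact hlt2
    · intro z
      rw [SS_cons, Multiset.sum_cons]
      constructor
      · rintro (hz1 | ⟨z', hz1, rfl⟩)
        · obtain ⟨k, hk, rfl⟩ := (hSS _).mp hz1
          exact ⟨k, by omega, rfl⟩
        · obtain ⟨k, hk, rfl⟩ := (hSS _).mp hz1
          exact ⟨y + k, by omega, by rw [hxe, add_nsmul]⟩
      · rintro ⟨k, hk, rfl⟩
        rcases le_or_gt k L.sum with h3 | h3
        · exact Or.inl ((hSS _).mpr ⟨k, h3, rfl⟩)
        · right
          refine ⟨(k - y) • g, (hSS _).mpr ⟨k - y, by omega, rfl⟩, ?_⟩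
          rw [hxe, ← add_nsmul, Nat.add_sub_cancel' (by omega)]

end Pool.Agent.Q326.ZS
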