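import Pool.Agent.Q326.ZS.Main

/-!
Zero-sum sequences over `ZMod d` with few blocks.
-/

set_option autoImplicit false

namespace Pool.Agent.Q326.ZS

/-! ### Multisets of positive integers -/

lemma ones (L : Multiset ℕ) (h : ∀ n ∈ L, 0 < n) :
    2 * Multiset.card L ≤ L.sum + L.count 1 := by
  induction L using Multiset.induction_on with
  | empty => simp
  | cons a L ih =>
    have h1 := h a (Multiset.mem_cons_self a L)
    have h2 := ih (fun n hn => h n (Multiset.mem_cons_of_mem hn))
    rw [Multiset.card_cons, Multiset.sum_cons, Multiset.count_cons]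
    split_ifs with h3 <;> omega

lemma int_sums : ∀ n : ℕ, ∀ L : Multiset ℕ, Multiset.card L = n → (∀ k ∈ L, 0 < k) →
    L.sum < 2 * n → ∀ i ≤ L.sum, ∃ M ≤ L, M.sum = i := by
  intro n
  induction n with
  | zero => intro L _ _ h; omega
  | succ n ih =>
    intro L hL hpos hlt i hi
    by_cases hex : ∃ x ∈ L, 2 ≤ x
    · obtain ⟨x, hx, hx2⟩ := hex
      obtain ⟨L', rfl⟩ := Multiset.exists_cons_of_mem hx
      rw [Multiset.card_cons] at hL
      rw [Multiset.sum_cons] at hlt hi
      have hpos' : ∀ k ∈ L', 0 < k := fun k hk => hpos k (Multiset.mem_cons_of_mem hk)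
      have h1 := card_le_sum hpos'
      have hI := ih L' (by omega) hpos' (by omega)
      rcases le_or_gt i L'.sum with h2 | h2
      · obtain ⟨M, hM, hMs⟩ := hI i h2
        exact ⟨M, hM.trans (Multiset.le_cons_self L' x), hMs⟩
      · obtain ⟨M, hM, hMs⟩ := hI (i - x) (by omega)
        refine ⟨x ::ₘ M, Multiset.cons_le_cons x hM, ?_⟩
        rw [Multiset.sum_cons, hMs]
        omega
    · push Not at hex
      have hrep : L = Multiset.replicate (n + 1) 1 :=
        Multiset.eq_replicate.mpr ⟨hL, fun k hk => by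
          have := hex k hk; have := hpos k hk; omega⟩
      rw [hrep, Multiset.sum_replicate, smul_eq_mul, mul_one] at hi
      refine ⟨Multiset.replicate i 1, ?_, ?_⟩
      · rw [hrep]; exact (Multiset.replicate_le_replicate 1).mpr hi
      · rw [Multiset.sum_replicate, smul_eq_mul, mul_one]

lemma map_split {α β : Type*} [DecidableEq α] (f : α → β) : ∀ (A B : Multiset β) (L : Multiset α),
    L.map f = A + B → ∃ LA LB, L = LA + LB ∧ LA.map f = A ∧ LB.map f = B := by
  intro A
  induction A using Multiset.induction_on with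
  | empty =>
    intro B L h
    exact ⟨0, L, by rw [zero_add], by rw [Multiset.map_zero], by rw [h, zero_add]⟩
  | cons a A ih =>
    intro B L h
    rw [Multiset.cons_add] at h
    obtain ⟨x, hx, hfx, hrest⟩ := (Multiset.map_eq_cons f L (A + B) a).mpr h
    obtain ⟨LA, LB, h1, h2, h3⟩ := ih B (L.erase x) hrest
    refine ⟨x ::ₘ LA, LB, ?_, ?_, h3⟩
    · rw [Multiset.cons_add, ← h1, Multiset.cons_erase hx]
    · rw [Multiset.map_cons, hfx, h2]

section zmod

variable {d : ℕ} [NeZero d]

lemma card_SS {s : Multiset (ZMod d)} (h : ZeroFree s) : Multiset.card s + 1 ≤ (SS s).card := by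
  induction s using Multiset.induction_on with
  | empty =>
    rw [Multiset.card_zero]
    exact Finset.card_pos.mpr ⟨0, zero_mem _⟩
  | cons a s ih =>
    have h1 := ih (h.mono (Multiset.le_cons_self s a))
    rw [Multiset.card_cons]
    have h2 : (insert (a ::ₘ s).sum (SS s)).card ≤ (SS (a ::ₘ s)).card := by
      apply Finset.card_le_card
      intro z hz
      rcases Finset.mem_insert.mp hz with rfl | hz
      · exact sum_mem _
      · exact SS_mono (Multiset.le_cons_self s a) hz
    rw [Finset.card_insert_of_notMem h.sum_notMem] at h2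
    omega

lemma card_SS_le (s : Multiset (ZMod d)) : (SS s).card ≤ d := by
  have h1 := Finset.card_le_univ (SS s)
  rwa [ZMod.card] at h1

/-- no decomposition into two zero-sum parts -/
def Minimal (b : Multiset (ZMod d)) : Prop :=
  b ≠ 0 ∧ b.sum = 0 ∧ ∀ c e : Multiset (ZMod d), c + e = b → c ≠ 0 → e ≠ 0 → c.sum ≠ 0

lemma Minimal.zeroFree {a : ZMod d} {s : Multiset (ZMod d)} (h : Minimal (a ::ₘ s)) :
    ZeroFree s := by
  intro t ht ht0
  obtain ⟨v, rfl⟩ := Multiset.le_iff_exists_add.mp ht
  refine h.2.2 t (a ::ₘ v) ?_ ht0 (Multiset.cons_ne_zero)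
  rw [Multiset.add_cons]

lemma Minimal.card_le {b : Multiset (ZMod d)} (h : Minimal b) : Multiset.card b ≤ d := by
  obtain ⟨a, ha⟩ := Multiset.card_pos_iff_exists_mem.mp (Multiset.card_pos.mpr h.1)
  obtain ⟨s, rfl⟩ := Multiset.exists_cons_of_mem ha
  have h1 := card_SS h.zeroFree
  have h2 := card_SS_le s
  rw [Multiset.card_cons]
  omega

/-- a block of index one with the generator `g` -/
def Gen (g : ZMod d) (L : Multiset ℕ) (b : Multiset (ZMod d)) : Prop :=
  addOrderOf g = d ∧ (∀ n ∈ L, 0 < n) ∧ L.sum = d ∧ b = L.map (fun n => n • g)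

/-- **Long minimal zero-sum sequences have index one.** -/
lemma Minimal.gen {b : Multiset (ZMod d)} (h : Minimal b) (hb : d / 2 + 2 ≤ Multiset.card b) :
    ∃ g L, Gen g L b := by
  obtain ⟨a, ha⟩ := Multiset.card_pos_iff_exists_mem.mp (Multiset.card_pos.mpr h.1)
  obtain ⟨s, rfl⟩ := Multiset.exists_cons_of_mem ha
  rw [Multiset.card_cons] at hb
  have hzf := h.zeroFree
  have h2 := card_SS_le s
  obtain ⟨g, L, hpos, hs, hlt, hSS⟩ := behaving_of_few (Multiset.card s) s rfl hzf (by omega)
  have hcl : Multiset.card s = Multiset.card L := by rw [hs, Multiset.card_map]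
  have h3 := card_le_sum hpos
  have hsum := h.2.1
  rw [Multiset.sum_cons] at hsum
  have hssum : s.sum = L.sum • g := by
    rw [hs]
    clear hs hcl hSS hlt h3 hpos
    induction L using Multiset.induction_on with
    | empty => simp
    | cons n L ih => rw [Multiset.map_cons, Multiset.sum_cons, Multiset.sum_cons, ih, add_nsmul]
  set o := addOrderOf g with ho
  have hog : o • g = 0 := addOrderOf_nsmul_eq_zero g
  have hae : a = (o - L.sum) • g := by
    have h4 : (o - L.sum) • g + s.sum = 0 := by
      rw [hssum, ← add_nsmul, Nat.sub_add_cancel hlt.le, hog]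
    have h5 : a + s.sum = (o - L.sum) • g + s.sum := by rw [hsum, h4]
    exact add_right_cancel h5
  have hod : o ∣ d := by
    have := addOrderOf_dvd_card (x := g)
    rwa [ZMod.card] at this
  have hodd : o = d := by
    obtain ⟨q, hq⟩ := hod
    have h6 : d < 2 * o := by omega
    have h7 : q ≠ 0 := by
      rintro rfl
      exact NeZero.ne d (by rw [hq, mul_zero])
    have h8 : q < 2 := by
      by_contra hcon
      push Not at hcon
      have : 2 * o ≤ d := by rw [hq]; nlinarith
      omega
    have h9 : q = 1 := by omega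
    rw [hq, h9, mul_one]
  refine ⟨g, (o - L.sum) ::ₘ L, hodd, ?_, ?_, ?_⟩
  · intro n hn
    rcases Multiset.mem_cons.mp hn with rfl | hn
    · omega
    · exact hpos n hn
  · rw [Multiset.sum_cons]; omega
  · rw [Multiset.map_cons, ← hs, ← hae]

lemma sum_map_nsmul (L : Multiset ℕ) (g : ZMod d) : (L.map (fun n => n • g)).sum = L.sum • g := by
  induction L using Multiset.induction_on with
  | empty => simp
  | cons n L ih => rw [Multiset.map_cons, Multiset.sum_cons, Multiset.sum_cons, ih, add_nsmul]

lemma gen_all {g : ZMod d} (hg : addOrderOf g = d) (z : ZMod d) : ∃ i < d, z = i • g := by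
  have hd : 0 < d := NeZero.pos d
  have hinj : Set.InjOn (fun i : ℕ => i • g) (Finset.range d : Set ℕ) := by
    intro i hi j hj hij
    rw [Finset.coe_range, Set.mem_Iio] at hi hj
    exact nsmul_injOn_Iio_addOrderOf (by rw [Set.mem_Iio, hg]; exact hi)
      (by rw [Set.mem_Iio, hg]; exact hj) hij
  have h1 : ((Finset.range d).image (fun i : ℕ => i • g)).card = Fintype.card (ZMod d) := by
    rw [Finset.card_image_of_injOn hinj, Finset.card_range, ZMod.card]
  have h2 := (Finset.card_eq_iff_eq_univ _).mp h1
  have h3 : z ∈ (Finset.range d).image (fun i : ℕ => i • g) := by rw [h2]; exact Finset.mem_univ z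
  obtain ⟨i, hi, rfl⟩ := Finset.mem_image.mp h3
  exact ⟨i, Finset.mem_range.mp hi, rfl⟩

/-- **The exchange.** If all decompositions of `b + c` into two zero-sum parts consist of blocks of
index one, then the generators of `b` and `c` agree. -/
lemma exchange {b c : Multiset (ZMod d)} {g h : ZMod d} {L M : Multiset ℕ} (hb : Gen g L b)
    (hc : Gen h M c) (hLc : d / 2 + 2 ≤ Multiset.card L) (hMc : d / 2 + 2 ≤ Multiset.card M)
    (hex : ∀ e f : Multiset (ZMod d), e + f = b + c → e ≠ 0 → f ≠ 0 → e.sum = 0 → f.sum = 0 →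
      ∃ g' L', Gen g' L' f) : h = g := by
  obtain ⟨hg, hLpos, hLs, hbe⟩ := hb
  obtain ⟨hh, hMpos, hMs, hce⟩ := hc
  have hd : 0 < d := NeZero.pos d
  obtain ⟨y, hyd, hy⟩ := gen_all hg h
  have hh0 : h ≠ 0 := by
    intro h0
    rw [h0, addOrderOf_zero] at hh
    have := card_le_sum hMpos
    omega
  have hy0 : y ≠ 0 := by
    rintro rfl
    exact hh0 (by rw [hy, zero_nsmul])
  -- a one in M
  have hM1 := ones M hMpos
  have h1M : 1 ∈ M := Multiset.count_pos.mp (by omega)
  obtain ⟨M', rfl⟩ := Multiset.exists_cons_of_mem h1M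
  rw [Multiset.sum_cons] at hMs
  rw [Multiset.card_cons] at hMc
  have hM'pos : ∀ n ∈ M', 0 < n := fun n hn => hMpos n (Multiset.mem_cons_of_mem hn)
  have hce' : c = h ::ₘ M'.map (fun n => n • h) := by
    rw [hce, Multiset.map_cons, one_nsmul]
  have hM's : (M'.map (fun n => n • h)).sum = -h := by
    rw [sum_map_nsmul]
    have h1 : h + M'.sum • h = 0 := by
      have h2 : (1 + M'.sum) • h = 0 := by
        rw [hMs]
        have := addOrderOf_nsmul_eq_zero h
        rwa [hh] at this
      rwa [add_nsmul, one_nsmul] at h2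
    exact (neg_eq_of_add_eq_zero_right h1).symm
  have claim : ∀ R ≤ L, R.sum = y → Multiset.card R ≤ 1 := by
    intro R hR hRs
    obtain ⟨T, rfl⟩ := Multiset.le_iff_exists_add.mp hR
    rw [Multiset.sum_add] at hLs
    have hTs : T.sum = d - y := by omega
    have e1 : (h ::ₘ T.map (fun n => n • g)) + (R.map (fun n => n • g) + M'.map (fun n => n • h)) =
        b + c := by
      rw [hbe, hce', Multiset.map_add, Multiset.cons_add, Multiset.add_cons]
      congr 1
      rw [← add_assoc, add_comm (T.map (fun n => n • g))]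
    have hRne : R ≠ 0 := by
      rintro rfl
      rw [Multiset.sum_zero] at hRs
      exact hy0 hRs.symm
    obtain ⟨g', L', hg', hL'pos, hL's, hL'e⟩ := hex _ _ e1 (Multiset.cons_ne_zero) (by
      intro h0
      have := congrArg Multiset.card h0
      rw [Multiset.card_add, Multiset.card_map, Multiset.card_map, Multiset.card_zero] at this
      exact hRne (Multiset.card_eq_zero.mp (by omega)))
      (by
        rw [Multiset.sum_cons, sum_map_nsmul, hTs, hy, ← add_nsmul, Nat.add_sub_cancel' hyd.le]
        have := addOrderOf_nsmul_eq_zero g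
        rwa [hg] at this)
      (by
        rw [Multiset.sum_add, sum_map_nsmul, hRs, ← hy, hM's, add_neg_cancel])
    obtain ⟨LR, LM, h3, h4, h5⟩ := map_split (fun n => n • g') _ _ L' hL'e.symm
    have hLRpos : ∀ n ∈ LR, 0 < n := fun n hn => hL'pos n (by rw [h3]; exact Multiset.mem_add.mpr (Or.inl hn))
    have hLMpos : ∀ n ∈ LM, 0 < n := fun n hn => hL'pos n (by rw [h3]; exact Multiset.mem_add.mpr (Or.inr hn))
    rw [h3, Multiset.sum_add] at hL's
    -- all of `ZMod d` are subset sums of `M'`
    have hall : ∀ z : ZMod d, z ∈ (Finset.range (LM.sum + 1)).image (fun i : ℕ => i • g') := by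
      intro z
      obtain ⟨i, hi, rfl⟩ := gen_all hh z
      obtain ⟨N, hN, hNs⟩ := int_sums (Multiset.card M') M' rfl hM'pos (by omega) i (by omega)
      obtain ⟨N', rfl⟩ := Multiset.le_iff_exists_add.mp hN
      rw [Multiset.map_add] at h5
      obtain ⟨LN, LN', h6, h7, h8⟩ := map_split (fun n => n • g') _ _ LM h5
      rw [Finset.mem_image]
      refine ⟨LN.sum, ?_, ?_⟩
      · rw [Finset.mem_range, h6, Multiset.sum_add]
        omega
      · rw [← sum_map_nsmul, h7, sum_map_nsmul, hNs]
    have hcard : d ≤ LM.sum + 1 := by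
      have h9 : (Finset.univ : Finset (ZMod d)) ⊆
          (Finset.range (LM.sum + 1)).image (fun i : ℕ => i • g') := fun z _ => hall z
      have h10 := (Finset.card_le_card h9).trans Finset.card_image_le
      rwa [Finset.card_univ, ZMod.card, Finset.card_range] at h10
    have h11 := card_le_sum hLRpos
    have h12 : Multiset.card R = Multiset.card LR := by
      have := congrArg Multiset.card h4
      rw [Multiset.card_map, Multiset.card_map] at this
      exact this.symm
    omega
  by_cases hy1 : y = 1
  · rw [hy, hy1, one_nsmul]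
  · exfalso
    obtain ⟨R, hR, hRs⟩ := int_sums (Multiset.card L) L rfl hLpos (by omega) y (by omega)
    have hRc := claim R hR hRs
    have hRne : R ≠ 0 := by
      rintro rfl
      rw [Multiset.sum_zero] at hRs
      exact hy0 hRs.symm
    have hRc1 : Multiset.card R = 1 := by
      have := Multiset.card_pos.mpr hRne
      omega
    obtain ⟨r, rfl⟩ := Multiset.card_eq_one.mp hRc1
    rw [Multiset.sum_singleton] at hRs
    subst hRs
    obtain ⟨L1, rfl⟩ := Multiset.exists_cons_of_mem (Multiset.singleton_le.mp hR)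
    rw [Multiset.card_cons] at hLc
    rw [Multiset.sum_cons] at hLs
    have h13 := ones L1 (fun n hn => hLpos n (Multiset.mem_cons_of_mem hn))
    have h14 : Multiset.replicate r 1 ≤ L1 := by
      rw [Multiset.le_iff_count]
      intro a
      rw [Multiset.count_replicate]
      split_ifs with h15
      · rw [← h15]; omega
      · exact Nat.zero_le _
    have h15 := claim (Multiset.replicate r 1) (h14.trans (Multiset.le_cons_self L1 r)) (by
      rw [Multiset.sum_replicate, smul_eq_mul, mul_one])
    rw [Multiset.card_replicate] at h15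
    omega

end zmod

end Pool.Agent.Q326.ZS
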