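import Pool.Agent.Q326.ZS.Base

/-!
Zero-free sequences with few subset sums: the structure theorem.
-/

set_option autoImplicit false

namespace Pool.Agent.Q326.ZS

variable {G : Type*} [AddCommGroup G] [DecidableEq G] [Finite G]

lemma all_equal {s : Multiset G} (hz : ZeroFree s)
    (hA : ∀ x t, s = x ::ₘ t → ∀ z, z ∈ SS t ↔ z ∈ SS s ∧ z ≠ s.sum) :
    ∀ x ∈ s, ∀ y ∈ s, y = x := by
  classical
  have up : ∀ x ∈ s, ∀ z ∈ SS s, z ≠ s.sum → x + z ∈ SS s := by
    intro x hx z hzm hne
    obtain ⟨t, ht⟩ := Multiset.exists_cons_of_mem hx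
    have h1 := (hA x t ht z).mpr ⟨hzm, hne⟩
    rw [ht, SS_cons]
    exact Or.inr ⟨z, h1, rfl⟩
  have dn : ∀ x ∈ s, ∀ z ∈ SS s, z ≠ 0 → z - x ∈ SS s := by
    intro x hx z hzm hne
    have h1 := up x hx _ (symm_mem hzm) (by
      intro h
      apply hne
      have : s.sum - z + z = s.sum + z := by rw [h]
      rw [sub_add_cancel] at this
      exact (add_eq_left.mp this.symm))
    have h2 := symm_mem h1
    have h3 : s.sum - (x + (s.sum - z)) = z - x := by abel
    rwa [h3] at h2
  have ng : ∀ x ∈ s, -x ∈ SS s → -x = s.sum := by
    intro x hx hm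
    by_contra hne
    obtain ⟨t, ht⟩ := Multiset.exists_cons_of_mem hx
    have h1 := (hA x t ht (-x)).mpr ⟨hm, hne⟩
    have hz' : ZeroFree (x ::ₘ t) := by rw [← ht]; exact hz
    exact hz'.add_ne h1 (add_neg_cancel x)
  have down : ∀ x ∈ s, ∀ z ∈ SS s, (∀ j : ℕ, z ≠ j • x) → ∀ i : ℕ, z - i • x ∈ SS s := by
    intro x hx z hzm hne i
    induction i with
    | zero => simpa using hzm
    | succ i ih =>
      have h1 := dn x hx _ ih (by
        intro h
        exact hne i (sub_eq_zero.mp h))
      have h2 : z - i • x - x = z - (i + 1) • x := by rw [succ_nsmul]; abel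
      rwa [h2] at h1
  intro x hx y hy
  have hx0 : x ≠ 0 := by
    have := hz {x} (Multiset.singleton_le.mpr hx) (Multiset.singleton_ne_zero x)
    simpa using this
  have hy0 : y ≠ 0 := by
    have := hz {y} (Multiset.singleton_le.mpr hy) (Multiset.singleton_ne_zero y)
    simpa using this
  set o := addOrderOf x with ho
  have ho0 : 0 < o := addOrderOf_pos x
  have hox : o • x = 0 := addOrderOf_nsmul_eq_zero x
  have hneg : (o - 1) • x = -x := by
    have h1 : (o - 1) • x + x = 0 := by
      rw [← succ_nsmul, Nat.sub_add_cancel ho0, hox]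
    exact eq_neg_of_add_eq_zero_left h1
  have hinj : ∀ i j : ℕ, i < o → j < o → i • x = j • x → i = j := by
    intro i j hi hj h
    exact nsmul_injOn_Iio_addOrderOf (by rw [Set.mem_Iio]; exact hi) (by rw [Set.mem_Iio]; exact hj) h
  -- the total is a multiple of x
  have hσ : ∃ j : ℕ, s.sum = j • x := by
    by_contra hcon
    push Not at hcon
    have h1 := down x hx _ (sum_mem s) hcon (o - 1)
    have h2 := symm_mem h1
    have h3 : s.sum - (s.sum - (o - 1) • x) = (o - 1) • x := by abel
    rw [h3, hneg] at h2
    have h4 := ng x hx h2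
    exact hcon (o - 1) (by rw [hneg, h4])
  set w := Nat.find hσ with hw
  have hws : s.sum = w • x := Nat.find_spec hσ
  have hwmin : ∀ i < w, s.sum ≠ i • x := fun i hi => Nat.find_min hσ hi
  have hwo : w < o := by
    by_contra hcon
    push Not at hcon
    refine hwmin (w - o) (by omega) ?_
    have : w • x = (w - o) • x + o • x := by rw [← add_nsmul, Nat.sub_add_cancel hcon]
    rw [hws, this, hox, add_zero]
  -- going up
  have climb : ∀ a : ℕ, a • x ∈ SS s → ∀ b : ℕ, a ≤ b → (∀ i, a ≤ i → i < b → i • x ≠ s.sum) →
      b • x ∈ SS s := by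
    intro a ha b hab
    induction b, hab using Nat.le_induction with
    | base => intro _; exact ha
    | succ b hab ih =>
      intro h
      have h1 := ih (fun i hi1 hi2 => h i hi1 (by omega))
      have h2 := up x hx _ h1 (h b hab (by omega))
      have h3 : x + b • x = (b + 1) • x := by rw [succ_nsmul]; abel
      rwa [h3] at h2
  have hfull : ∀ i ≤ w, i • x ∈ SS s := by
    intro i hi
    refine climb 0 (by rw [zero_nsmul]; exact zero_mem s) i (Nat.zero_le _) ?_
    intro k _ hk h
    exact hwmin k (by omega) h.symm
  -- nothing above w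
  have habove : ∀ a : ℕ, w < a → a < o → a • x ∉ SS s := by
    intro a h1 h2 h3
    have h4 := climb a h3 (o - 1) (by omega) (by
      intro i hi1 hi2 h
      rw [hws] at h
      have := hinj i w (by omega) hwo h
      omega)
    rw [hneg] at h4
    have h5 := ng x hx h4
    rw [← hneg, hws] at h5
    have := hinj _ _ (by omega) hwo h5
    omega
  -- y is a multiple of x
  have hyx : ∃ j : ℕ, y = j • x := by
    by_contra hcon
    push Not at hcon
    have h1 := down x hx y (SS_mono (Multiset.singleton_le.mpr hy) (by
      have := sum_mem ({y} : Multiset G)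
      simpa using this)) hcon (o * (w + 1) - w)
    have h2 := symm_mem h1
    have hle : w ≤ o * (w + 1) := by nlinarith
    have h3 : s.sum - (y - (o * (w + 1) - w) • x) = -y := by
      have h4 : w • x + (o * (w + 1) - w) • x = 0 := by
        rw [← add_nsmul, Nat.add_sub_cancel' hle, mul_comm, mul_nsmul', hox]
        simp
      rw [hws]
      have h5 : w • x - (y - (o * (w + 1) - w) • x) = (w • x + (o * (w + 1) - w) • x) - y := by abel
      rw [h5, h4, zero_sub]
    rw [h3] at h2
    have h6 := ng y hy h2
    apply hcon (o * (w + 1) - w)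
    have h7 : w • x + (o * (w + 1) - w) • x = 0 := by
      rw [← add_nsmul, Nat.add_sub_cancel' hle, mul_comm, mul_nsmul', hox]
      simp
    have h8 : y = - s.sum := by rw [← h6, neg_neg]
    rw [h8, hws]
    exact (neg_eq_of_add_eq_zero_right h7)
  set j := Nat.find hyx with hj
  have hyj : y = j • x := Nat.find_spec hyx
  have hjmin : ∀ i < j, y ≠ i • x := fun i hi => Nat.find_min hyx hi
  have hjo : j < o := by
    by_contra hcon
    push Not at hcon
    refine hjmin (j - o) (by omega) ?_
    have : j • x = (j - o) • x + o • x := by rw [← add_nsmul, Nat.sub_add_cancel hcon]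
    rw [hyj, this, hox, add_zero]
  have hj0 : j ≠ 0 := by
    intro h
    apply hy0
    rw [hyj, h, zero_nsmul]
  have hyA : y ∈ SS s := SS_mono (Multiset.singleton_le.mpr hy) (by
    have := sum_mem ({y} : Multiset G)
    simpa using this)
  have hjw : j ≤ w := by
    by_contra hcon
    push Not at hcon
    exact habove j hcon hjo (by rw [← hyj]; exact hyA)
  by_contra hne
  have hj2 : 2 ≤ j := by
    rcases Nat.lt_or_ge j 2 with h | h
    · exfalso
      have : j = 1 := by omega
      apply hne
      rw [hyj, this, one_nsmul]
    · exact h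
  have h1 := up y hy _ (hfull (w - j + 1) (by omega)) (by
    intro h
    exact hwmin (w - j + 1) (by omega) h.symm)
  have h2 : y + (w - j + 1) • x = (w + 1) • x := by
    rw [hyj, ← add_nsmul]
    congr 1
    omega
  rw [h2] at h1
  have h3 : w + 1 = o := by
    by_contra hcon
    exact habove (w + 1) (by omega) (by omega) h1
  have h4 : -y ∈ SS s := by
    have h5 : -y = (o - j) • x := by
      have h6 : (o - j) • x + j • x = 0 := by
        rw [← add_nsmul, Nat.sub_add_cancel hjo.le, hox]
      rw [hyj]
      exact (eq_neg_of_add_eq_zero_left h6).symm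
    rw [h5]
    exact hfull _ (by omega)
  have h5 := ng y hy h4
  have h6 : s.sum = -x := by
    rw [hws, ← hneg]
    congr 1
    omega
  rw [h6] at h5
  exact hne (neg_injective h5)

/-- **Zero-free sequences with few subset sums.** -/
theorem behaving_of_few : ∀ n : ℕ, ∀ s : Multiset G, Multiset.card s = n → ZeroFree s →
    (SS s).card < 2 * n → Behaving s := by
  intro n
  induction n with
  | zero =>
    intro s _ _ h
    omega
  | succ n ih =>
    intro s hs hz hc
    by_cases hex : ∃ x t, s = x ::ₘ t ∧ (SS t).card < 2 * n
    · obtain ⟨x, t, rfl, ht⟩ := hex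
      rw [Multiset.card_cons] at hs
      have hbt := ih t (by omega) (hz.mono (Multiset.le_cons_self t x)) ht
      exact extend hz hbt (by rw [show Multiset.card t = n by omega]; exact hc)
    · push Not at hex
      have hA : ∀ x t, s = x ::ₘ t → ∀ z, z ∈ SS t ↔ z ∈ SS s ∧ z ≠ s.sum := by
        intro x t ht
        have h1 := hex x t ht
        have hz' : ZeroFree (x ::ₘ t) := by rw [← ht]; exact hz
        have hnot : s.sum ∉ SS t := by
          have := hz'.sum_notMem
          rwa [← ht] at this
        have hsub : SS t ⊆ (SS s).erase s.sum := by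
          intro z hzt
          rw [Finset.mem_erase]
          refine ⟨fun h => hnot (by rw [← h]; exact hzt), ?_⟩
          rw [ht]
          exact SS_mono (Multiset.le_cons_self t x) hzt
        have hcard : ((SS s).erase s.sum).card ≤ (SS t).card := by
          rw [Finset.card_erase_of_mem (sum_mem s)]
          omega
        have heq := Finset.eq_of_subset_of_card_le hsub hcard
        intro z
        rw [heq, Finset.mem_erase]
        exact and_comm
      have hall := all_equal hz hA
      obtain ⟨x, hx⟩ := Multiset.card_pos_iff_exists_mem.mp (by omega : 0 < Multiset.card s)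
      have hrep : s = Multiset.replicate (n + 1) x :=
        Multiset.eq_replicate.mpr ⟨hs, fun y hy => hall x hx y hy⟩
      refine ⟨x, Multiset.replicate (n + 1) 1, ?_, ?_, ?_, ?_⟩
      · intro k hk
        rw [Multiset.eq_of_mem_replicate hk]
        exact Nat.one_pos
      · rw [Multiset.map_replicate, one_nsmul]
        exact hrep
      · rw [Multiset.sum_replicate, smul_eq_mul, mul_one]
        by_contra hcon
        push Not at hcon
        refine hz (Multiset.replicate (addOrderOf x) x) ?_ ?_ ?_
        · rw [hrep]
          exact (Multiset.replicate_le_replicate x).mpr hcon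
        · intro h
          have := congrArg Multiset.card h
          rw [Multiset.card_replicate, Multiset.card_zero] at this
          exact (addOrderOf_pos x).ne' this
        · rw [Multiset.sum_replicate, addOrderOf_nsmul_eq_zero]
      · intro y
        rw [mem_SS, Multiset.sum_replicate, smul_eq_mul, mul_one, hrep]
        constructor
        · rintro ⟨t, ht, rfl⟩
          obtain ⟨k, hk, rfl⟩ := Multiset.le_replicate_iff.mp ht
          exact ⟨k, hk, by rw [Multiset.sum_replicate]⟩
        · rintro ⟨k, hk, rfl⟩
          exact ⟨Multiset.replicate k x, (Multiset.replicate_le_replicate x).mpr hk,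
            by rw [Multiset.sum_replicate]⟩

end Pool.Agent.Q326.ZS
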