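import Pool.Agent.Q326.ZS.D.S2
import Pool.Agent.Q326.ZS.D.S3
import Pool.Agent.Q326.ZS.D.S4
import Pool.Agent.Q326.ZS.D.S5
import Pool.Agent.Q326.ZS.D.S6
import Pool.Agent.Q326.ZS.D.S7
import Pool.Agent.Q326.ZS.D.S8
import Pool.Agent.Q326.ZS.D.S9
import Pool.Agent.Q326.ZS.D.S10

/-! The degrees `≤ 10`. -/

set_option autoImplicit false

namespace Pool.Agent.Q326.ZS

/-- **Small degrees.** Let `d ≤ 10` and let `α` be a nonempty multiset of nonzero elements of `ℤ/d` with sum
zero. If for all units `u` the least positive residues of the `u a` have sum at least `(k + 1) d`, then `α` is up to swaps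
a union of at least `k + 1` nonempty multisets with sum zero. -/
theorem splits_small {d : ℕ} [inst : NeZero d] (hd : d ≤ 10) {α : Multiset (ZMod d)} (hne : α ≠ 0)
    (h0 : (0 : ZMod d) ∉ α) (hs : α.sum = 0) {k : ℕ}
    (hk : ∀ u : ZMod d, IsUnit u → (k + 1) * d ≤ (α.map fun a => (u * a).val).sum) :
    ∃ β B, Relation.ReflTransGen Swap α β ∧ Dec β B ∧ k + 1 ≤ Multiset.card B := by
  have hd0 : 0 < d := NeZero.pos d
  interval_cases d
  · exfalso
    obtain ⟨x, hx⟩ := Multiset.exists_mem_of_ne_zero hne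
    exact h0 ((Subsingleton.elim x 0) ▸ hx)
  · exact splits_of_sstep phi2_pos sstep2 h0 hs hk
  · exact splits_of_sstep phi3_pos sstep3 h0 hs hk
  · exact splits_of_sstep phi4_pos sstep4 h0 hs hk
  · exact splits_of_sstep phi5_pos sstep5 h0 hs hk
  · exact splits_of_sstep phi6_pos sstep6 h0 hs hk
  · exact splits_of_sstep phi7_pos sstep7 h0 hs hk
  · exact splits_of_sstep phi8_pos sstep8 h0 hs hk
  · exact splits_of_sstep phi9_pos sstep9 h0 hs hk
  · exact splits_of_sstep phi10_pos sstep10 h0 hs hk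

end Pool.Agent.Q326.ZS
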