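import Pool.Agent.Q326.ZS.Blocks

/-!
Multisets over `ZMod d` which are unions of few zero-sum multisets.
-/

set_option autoImplicit false

namespace Pool.Agent.Q326.ZS

variable {d : ℕ} [NeZero d]

/-- `B` is a decomposition of `α` into nonempty multisets with sum zero -/
def Dec (α : Multiset (ZMod d)) (B : Multiset (Multiset (ZMod d))) : Prop :=
  (∀ b ∈ B, b ≠ 0 ∧ b.sum = 0) ∧ B.sum = α

/-- a decomposition with the largest number of parts -/
def Best (α : Multiset (ZMod d)) (K : ℕ) : Prop :=
  (∃ B, Dec α B ∧ Multiset.card B = K) ∧ ∀ B, Dec α B → Multiset.card B ≤ K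

lemma exists_best {α : Multiset (ZMod d)} (h0 : α ≠ 0) (hs : α.sum = 0) {k : ℕ}
    (hk : ∀ B, Dec α B → Multiset.card B ≤ k) : ∃ K, K ≤ k ∧ Best α K := by
  classical
  have h1 : Dec α {α} := by
    refine ⟨fun b hb => ?_, Multiset.sum_singleton α⟩
    rw [Multiset.mem_singleton] at hb
    rw [hb]
    exact ⟨h0, hs⟩
  have h2 : (fun c => ∃ B, Dec α B ∧ Multiset.card B = c) 1 := ⟨{α}, h1, Multiset.card_singleton α⟩
  have h3 : 1 ≤ k := by
    have := hk _ h1
    rwa [Multiset.card_singleton] at this
  refine ⟨Nat.findGreatest (fun c => ∃ B, Dec α B ∧ Multiset.card B = c) k,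
    Nat.findGreatest_le k,
    Nat.findGreatest_spec (P := fun c => ∃ B, Dec α B ∧ Multiset.card B = c) h3 h2, fun B hB => ?_⟩
  exact Nat.le_findGreatest (P := fun c => ∃ B, Dec α B ∧ Multiset.card B = c) (hk B hB) ⟨B, hB, rfl⟩

lemma Best.minimal {α : Multiset (ZMod d)} {K : ℕ} (h : Best α K)
    {B : Multiset (Multiset (ZMod d))} (hB : Dec α B) (hc : Multiset.card B = K) :
    ∀ b ∈ B, Minimal b := by
  intro b hb
  refine ⟨(hB.1 b hb).1, (hB.1 b hb).2, fun c e hce hc0 he0 hcs => ?_⟩
  obtain ⟨B', rfl⟩ := Multiset.exists_cons_of_mem hb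
  have hes : e.sum = 0 := by
    have h1 := (hB.1 b hb).2
    rw [← hce, Multiset.sum_add, hcs, zero_add] at h1
    exact h1
  have h2 : Dec α (c ::ₘ e ::ₘ B') := by
    refine ⟨fun x hx => ?_, ?_⟩
    · rcases Multiset.mem_cons.mp hx with rfl | hx
      · exact ⟨hc0, hcs⟩
      rcases Multiset.mem_cons.mp hx with rfl | hx
      · exact ⟨he0, hes⟩
      · exact hB.1 x (Multiset.mem_cons_of_mem hx)
    · rw [Multiset.sum_cons, Multiset.sum_cons, ← add_assoc, hce, ← Multiset.sum_cons]
      exact hB.2
  have h3 := h.2 _ h2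
  rw [Multiset.card_cons, Multiset.card_cons] at h3
  rw [Multiset.card_cons] at hc
  omega

lemma card_sum_le {B : Multiset (Multiset (ZMod d))} {c : ℕ} (h : ∀ b ∈ B, Multiset.card b ≤ c) :
    Multiset.card B.sum ≤ Multiset.card B * c := by
  induction B using Multiset.induction_on with
  | empty => simp
  | cons b B ih =>
    have h1 := h b (Multiset.mem_cons_self b B)
    have h2 := ih (fun x hx => h x (Multiset.mem_cons_of_mem hx))
    rw [Multiset.sum_cons, Multiset.card_add, Multiset.card_cons, add_mul, one_mul]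
    omega

lemma sum_map_sum {B : Multiset (Multiset (ZMod d))} {f : ZMod d → ℕ} {c : ℕ}
    (h : ∀ b ∈ B, (b.map f).sum = c) : (B.sum.map f).sum = Multiset.card B * c := by
  induction B using Multiset.induction_on with
  | empty => simp
  | cons b B ih =>
    have h1 := h b (Multiset.mem_cons_self b B)
    have h2 := ih (fun x hx => h x (Multiset.mem_cons_of_mem hx))
    rw [Multiset.sum_cons, Multiset.map_add, Multiset.sum_add, h1, h2, Multiset.card_cons, add_mul,
      one_mul, add_comm]

/-- **Few zero-sum parts.** Let `α` be a multiset of nonzero elements of `ℤ/d` with sum zero and with at least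
`(k - 1) d + d / 2 + 2` elements, `k ≥ 1`. Then `α` is a union of at least `k + 1` nonempty multisets with sum zero, or
for a unit `u` the sum of the least positive residues of the elements `u a` is `k d`. -/
theorem splits_or {α : Multiset (ZMod d)} (h0 : (0 : ZMod d) ∉ α) (hs : α.sum = 0) {k : ℕ}
    (hk : 1 ≤ k) (hc : (k - 1) * d + d / 2 + 2 ≤ Multiset.card α) :
    (∃ B, Dec α B ∧ k + 1 ≤ Multiset.card B) ∨
      ∃ u : ZMod d, IsUnit u ∧ (α.map fun a => (u * a).val).sum = k * d := by
  by_contra hcon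
  push Not at hcon
  obtain ⟨hno, hno'⟩ := hcon
  have hd : 0 < d := NeZero.pos d
  have hα : α ≠ 0 := by
    rintro rfl
    rw [Multiset.card_zero] at hc
    omega
  obtain ⟨K, hKk, hK⟩ := exists_best hα hs (k := k) (fun B hB => by have := hno B hB; omega)
  -- `K = k`
  have hKk' : K = k := by
    obtain ⟨B, hB, hBc⟩ := hK.1
    have h1 := card_sum_le (fun b hb => (hK.minimal hB hBc b hb).card_le)
    rw [hB.2, hBc] at h1
    by_contra hne
    have h2 : K ≤ k - 1 := by omega
    have h3 : K * d ≤ (k - 1) * d := Nat.mul_le_mul_right d h2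
    omega
  subst hKk'
  have hgen : ∀ B, Dec α B → Multiset.card B = K → ∀ b ∈ B,
      d / 2 + 2 ≤ Multiset.card b ∧ ∃ g L, Gen g L b := by
    intro B hB hBc b hb
    have hmin := hK.minimal hB hBc
    obtain ⟨B', rfl⟩ := Multiset.exists_cons_of_mem hb
    have h1 := card_sum_le (B := B')
      (fun x hx => (hmin x (Multiset.mem_cons_of_mem hx)).card_le)
    rw [Multiset.card_cons] at hBc
    have h2 := congrArg Multiset.card hB.2
    rw [Multiset.sum_cons, Multiset.card_add] at h2
    have h3 : Multiset.card B' = K - 1 := by omega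
    rw [h3] at h1
    have h4 : d / 2 + 2 ≤ Multiset.card b := by omega
    exact ⟨h4, (hmin b (Multiset.mem_cons_self b B')).gen h4⟩
  obtain ⟨B, hB, hBc⟩ := hK.1
  have hBne : 0 < Multiset.card B := by omega
  obtain ⟨b0, hb0⟩ := Multiset.card_pos_iff_exists_mem.mp hBne
  obtain ⟨hb0c, g, L0, hg0⟩ := hgen B hB hBc b0 hb0
  obtain ⟨B', rfl⟩ := Multiset.exists_cons_of_mem hb0
  have hall : ∀ b ∈ b0 ::ₘ B', ∃ L, Gen g L b := by
    intro b hb
    rcases Multiset.mem_cons.mp hb with rfl | hb'
    · exact ⟨L0, hg0⟩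
    · obtain ⟨hbc, h, M, hM⟩ := hgen _ hB hBc b hb
      obtain ⟨B'', rfl⟩ := Multiset.exists_cons_of_mem hb'
      have hcL : Multiset.card b0 = Multiset.card L0 := by rw [hg0.2.2.2, Multiset.card_map]
      have hcM : Multiset.card b = Multiset.card M := by rw [hM.2.2.2, Multiset.card_map]
      have hhg : h = g := by
        refine exchange hg0 hM (by omega) (by omega) fun e f hef he0 hf0 hes hfs => ?_
        have h1 : Dec α (e ::ₘ f ::ₘ B'') := by
          refine ⟨fun x hx => ?_, ?_⟩
          · rcases Multiset.mem_cons.mp hx with rfl | hx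
            · exact ⟨he0, hes⟩
            rcases Multiset.mem_cons.mp hx with rfl | hx
            · exact ⟨hf0, hfs⟩
            · exact hB.1 x (Multiset.mem_cons_of_mem (Multiset.mem_cons_of_mem hx))
          · rw [Multiset.sum_cons, Multiset.sum_cons, ← add_assoc, hef, add_assoc,
              ← Multiset.sum_cons, ← Multiset.sum_cons]
            exact hB.2
        have h2 : Multiset.card (e ::ₘ f ::ₘ B'') = K := by
          rw [Multiset.card_cons, Multiset.card_cons] at hBc ⊢
          exact hBc
        exact (hgen _ h1 h2 f (Multiset.mem_cons_of_mem (Multiset.mem_cons_self f B''))).2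
      exact ⟨M, hhg ▸ hM⟩
  obtain ⟨i, -, hi⟩ := gen_all hg0.1 1
  have hug : (i : ZMod d) * g = 1 := by rw [hi, nsmul_eq_mul]
  refine hno' (i : ZMod d) (IsUnit.of_mul_eq_one g hug) ?_
  have hblock : ∀ b ∈ b0 ::ₘ B', (b.map fun a => ((i : ZMod d) * a).val).sum = d := by
    intro b hb
    obtain ⟨L, -, hLpos, hLs, hbe⟩ := hall b hb
    rw [hbe, Multiset.map_map]
    have h1 : L.map ((fun a : ZMod d => ((i : ZMod d) * a).val) ∘ fun n => n • g) = L.map id := by
      refine Multiset.map_congr rfl fun n hn => ?_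
      have h2 : n ≤ L.sum := Multiset.le_sum_of_mem hn
      have h3 : n ≠ d := by
        rintro rfl
        apply h0
        rw [← hB.2]
        have h4 : (0 : ZMod n) ∈ b := by
          rw [hbe, Multiset.mem_map]
          refine ⟨n, hn, ?_⟩
          have := addOrderOf_nsmul_eq_zero g
          rwa [hg0.1] at this
        exact Multiset.mem_of_le (Multiset.le_sum_of_mem hb) h4
      rw [Function.comp_apply, nsmul_eq_mul, mul_left_comm, hug, mul_one, ZMod.val_natCast,
        Nat.mod_eq_of_lt (by omega), id]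
    rw [h1, Multiset.map_id, hLs]
  rw [← hB.2, sum_map_sum hblock, hBc]

end Pool.Agent.Q326.ZS
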