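import Pool.Agent.Q326.ZS.Split

/-!
Degrees for which each zero-sum multiset is a union of zero-sum multisets of index one for the same unit.
-/

set_option autoImplicit false

namespace Pool.Agent.Q326.ZS

section general

variable {d : ℕ} [NeZero d]

lemma sum_count (α : Multiset (ZMod d)) (f : ZMod d → ℕ) :
    (α.map f).sum = ∑ x, α.count x * f x := by
  induction α using Multiset.induction_on with
  | empty => simp
  | cons a α ih =>
    rw [Multiset.map_cons, Multiset.sum_cons, ih]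
    have h1 : ∀ x, (a ::ₘ α).count x * f x = α.count x * f x + (if x = a then f a else 0) := by
      intro x
      rw [Multiset.count_cons]
      split_ifs with h
      · rw [h]; ring
      · ring
    rw [Finset.sum_congr rfl fun x _ => h1 x, Finset.sum_add_distrib,
      Finset.sum_ite_eq' Finset.univ a, if_pos (Finset.mem_univ a), add_comm]

/-- the multiset with multiplicities `v` -/
def mk (v : ZMod d → ℕ) : Multiset (ZMod d) := ∑ x, Multiset.replicate (v x) x

lemma count_mk (v : ZMod d → ℕ) (y : ZMod d) : (mk v).count y = v y := by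
  unfold mk
  rw [Multiset.count_sum']
  simp_rw [Multiset.count_replicate]
  rw [Finset.sum_ite_eq' Finset.univ y, if_pos (Finset.mem_univ y)]

/-- the least positive residues of the elements have the smallest sum among the multiples by units -/
def Least (v : ZMod d → ℕ) : Prop :=
  ∀ u : ZMod d, IsUnit u → ∑ x, v x * x.val ≤ ∑ x, v x * (u * x).val

/-- a block of index one can be removed -/
def Step (d : ℕ) [NeZero d] : Prop :=
  ∀ v : ZMod d → ℕ, v 0 = 0 → (∃ x, v x ≠ 0) → d ∣ ∑ x, v x * x.val → Least v →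
    ∃ w w' : ZMod d → ℕ, (∀ x, v x = w x + w' x) ∧ ∑ x, w x * x.val = d ∧ Least w'

lemma sum_val_cast (b : Multiset (ZMod d)) : (((b.map ZMod.val).sum : ℕ) : ZMod d) = b.sum := by
  rw [← Nat.coe_castAddMonoidHom, map_multiset_sum, Multiset.map_map]
  congr 1
  conv_rhs => rw [← Multiset.map_id b]
  refine Multiset.map_congr rfl fun y _ => ?_
  simp

lemma blocks_of_step (hstep : Step d) : ∀ n : ℕ, ∀ α : Multiset (ZMod d), Multiset.card α = n →
    (0 : ZMod d) ∉ α → α.sum = 0 → Least (fun x => α.count x) →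
    ∃ B, Dec α B ∧ (α.map ZMod.val).sum = Multiset.card B * d := by
  intro n
  induction n using Nat.strong_induction_on with
  | _ n ih =>
    intro α hn h0 hs hL
    by_cases hα : α = 0
    · subst hα
      exact ⟨0, ⟨fun b hb => absurd hb (Multiset.notMem_zero b), Multiset.sum_zero⟩, by simp⟩
    · obtain ⟨x, hx⟩ := Multiset.exists_mem_of_ne_zero hα
      have hdvd : d ∣ ∑ x, α.count x * x.val := by
        rw [← sum_count, ← ZMod.natCast_eq_zero_iff, sum_val_cast, hs]
      obtain ⟨w, w', hww, hwd, hw'⟩ := hstep (fun x => α.count x)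
        (Multiset.count_eq_zero_of_notMem h0)
        ⟨x, (Multiset.count_pos.mpr hx).ne'⟩ hdvd hL
      have hsplit : α = mk w + mk w' := by
        ext y
        rw [Multiset.count_add, count_mk, count_mk]
        exact hww y
      have hwsum : ((mk w).map ZMod.val).sum = d := by
        rw [sum_count]
        simp_rw [count_mk]
        exact hwd
      have hw0 : (mk w).sum = 0 := by
        rw [← sum_val_cast, hwsum, ZMod.natCast_self]
      have hwne : mk w ≠ 0 := by
        intro h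
        rw [h, Multiset.map_zero, Multiset.sum_zero] at hwsum
        exact NeZero.ne d hwsum.symm
      have hc : Multiset.card (mk w') < n := by
        have := Multiset.card_pos.mpr hwne
        rw [← hn, hsplit, Multiset.card_add]
        omega
      have hs' : (mk w').sum = 0 := by
        rw [hsplit, Multiset.sum_add, hw0, zero_add] at hs
        exact hs
      have h0' : (0 : ZMod d) ∉ mk w' := by
        intro h
        apply h0
        rw [hsplit]
        exact Multiset.mem_add.mpr (Or.inr h)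
      obtain ⟨B, hB, hBs⟩ := ih _ hc (mk w') rfl h0' hs' (by
        have : (fun x => (mk w').count x) = w' := funext (count_mk w')
        rw [this]
        exact hw')
      refine ⟨mk w ::ₘ B, ⟨fun b hb => ?_, ?_⟩, ?_⟩
      · rcases Multiset.mem_cons.mp hb with rfl | hb
        · exact ⟨hwne, hw0⟩
        · exact hB.1 b hb
      · rw [Multiset.sum_cons, hB.2, ← hsplit]
      · rw [hsplit, Multiset.map_add, Multiset.sum_add, hwsum, hBs, Multiset.card_cons, add_mul,
          one_mul, add_comm]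

/-- **Degrees with `Step`.** If all multiples of `α` by units have residues with sum at least `(k + 1) d`, then `α` is a
union of at least `k + 1` nonempty multisets with sum zero. -/
theorem splits_of_step (hstep : Step d) {α : Multiset (ZMod d)} (h0 : (0 : ZMod d) ∉ α)
    (hs : α.sum = 0) {k : ℕ}
    (hk : ∀ u : ZMod d, IsUnit u → (k + 1) * d ≤ (α.map fun a => (u * a).val).sum) :
    ∃ B, Dec α B ∧ k + 1 ≤ Multiset.card B := by
  classical
  have hne : ((Finset.univ : Finset (ZMod d)).filter fun u => IsUnit u).Nonempty :=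
    ⟨1, by simp⟩
  obtain ⟨u, hu, hmin⟩ := Finset.exists_min_image _
    (fun u : ZMod d => (α.map fun a => (u * a).val).sum) hne
  rw [Finset.mem_filter] at hu
  have hu1 := hu.2
  obtain ⟨u', hu'⟩ := hu1.exists_left_inv
  set β := α.map (fun a => u * a) with hβ
  have hβα : β.map (fun a => u' * a) = α := by
    rw [hβ, Multiset.map_map]
    conv_rhs => rw [← Multiset.map_id α]
    refine Multiset.map_congr rfl fun y _ => ?_
    rw [Function.comp_apply, ← mul_assoc, hu', one_mul, id]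
  have hβ0 : (0 : ZMod d) ∉ β := by
    intro h
    obtain ⟨a, ha, hau⟩ := Multiset.mem_map.mp h
    exact h0 ((hu1.mul_right_eq_zero.mp hau) ▸ ha)
  have hβs : β.sum = 0 := by
    rw [hβ, Multiset.sum_map_mul_left, Multiset.map_id', hs, mul_zero]
  have hβL : Least (fun x => β.count x) := by
    intro t ht
    rw [← sum_count β (fun x => x.val), ← sum_count β (fun x => (t * x).val), hβ,
      Multiset.map_map, Multiset.map_map]
    have h1 := hmin (t * u) (Finset.mem_filter.mpr ⟨Finset.mem_univ _, ht.mul hu1⟩)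
    refine h1.trans (le_of_eq ?_)
    congr 1
    refine Multiset.map_congr rfl fun y _ => ?_
    rw [Function.comp_apply, mul_assoc]
  obtain ⟨B, hB, hBs⟩ := blocks_of_step hstep _ β rfl hβ0 hβs hβL
  refine ⟨B.map (Multiset.map fun a => u' * a), ⟨fun b hb => ?_, ?_⟩, ?_⟩
  · obtain ⟨c, hc, rfl⟩ := Multiset.mem_map.mp hb
    refine ⟨fun h => (hB.1 c hc).1 (Multiset.map_eq_zero.mp h), ?_⟩
    rw [Multiset.sum_map_mul_left, Multiset.map_id', (hB.1 c hc).2, mul_zero]
  · rw [← hβα, ← hB.2]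
    exact (Multiset.mapAddMonoidHom fun a => u' * a).map_multiset_sum B |>.symm
  · rw [Multiset.card_map]
    have h1 := hk u hu1
    have h2 : (α.map fun a => (u * a).val).sum = (β.map ZMod.val).sum := by
      rw [hβ, Multiset.map_map]
      rfl
    rw [h2, hBs] at h1
    exact Nat.le_of_mul_le_mul_right h1 (NeZero.pos d)

end general

lemma step_of {d : ℕ} [NeZero d] (h : ∀ v : ZMod d → ℕ, v 0 = 0 → (∃ x, v x ≠ 0) →
    d ∣ ∑ x, v x * x.val → Least v → ∃ w w' : ZMod d → ℕ, (∀ x, v x = w x + w' x) ∧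
    ∑ x, w x * x.val = d ∧ Least w') : Step d := h

lemma arith3 (p q : ℕ) (h0 : 0 < p + q) (hd : 3 ∣ p + 2 * q) (h2 : p + 2 * q ≤ 2 * p + q) :
    ∃ p' q' p'' q'' : ℕ, p = p' + p'' ∧ q = q' + q'' ∧ p' + 2 * q' = 3 ∧
      p'' + 2 * q'' ≤ 2 * p'' + q'' := by
  by_cases h : 1 ≤ q
  · exact ⟨1, 1, p - 1, q - 1, by omega, by omega, by omega, by omega⟩
  · exact ⟨3, 0, p - 3, q, by omega, by omega, by omega, by omega⟩

lemma arith4 (p q r : ℕ) (h0 : 0 < p + q + r) (hd : 4 ∣ p + 2 * q + 3 * r)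
    (h3 : p + 2 * q + 3 * r ≤ 3 * p + 2 * q + r) :
    ∃ p' q' r' p'' q'' r'' : ℕ, p = p' + p'' ∧ q = q' + q'' ∧ r = r' + r'' ∧
      p' + 2 * q' + 3 * r' = 4 ∧ p'' + 2 * q'' + 3 * r'' ≤ 3 * p'' + 2 * q'' + r'' := by
  by_cases h : 1 ≤ r
  · exact ⟨1, 0, 1, p - 1, q, r - 1, by omega, by omega, by omega, by omega, by omega⟩
  by_cases h' : 2 ≤ q
  · exact ⟨0, 2, 0, p, q - 2, r, by omega, by omega, by omega, by omega, by omega⟩
  by_cases h'' : 1 ≤ q
  · exact ⟨2, 1, 0, p - 2, q - 1, r, by omega, by omega, by omega, by omega, by omega⟩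
  · exact ⟨4, 0, 0, p - 4, q, r, by omega, by omega, by omega, by omega, by omega⟩

lemma arith5 (p q r s : ℕ) (h0 : 0 < p + q + r + s) (hd : 5 ∣ p + 2 * q + 3 * r + 4 * s)
    (h2 : p + 2 * q + 3 * r + 4 * s ≤ 2 * p + 4 * q + r + 3 * s)
    (h3 : p + 2 * q + 3 * r + 4 * s ≤ 3 * p + q + 4 * r + 2 * s)
    (h4 : p + 2 * q + 3 * r + 4 * s ≤ 4 * p + 3 * q + 2 * r + s) :
    ∃ p' q' r' s' p'' q'' r'' s'' : ℕ, p = p' + p'' ∧ q = q' + q'' ∧ r = r' + r'' ∧ s = s' + s'' ∧
      p' + 2 * q' + 3 * r' + 4 * s' = 5 ∧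
      p'' + 2 * q'' + 3 * r'' + 4 * s'' ≤ 2 * p'' + 4 * q'' + r'' + 3 * s'' ∧
      p'' + 2 * q'' + 3 * r'' + 4 * s'' ≤ 3 * p'' + q'' + 4 * r'' + 2 * s'' ∧
      p'' + 2 * q'' + 3 * r'' + 4 * s'' ≤ 4 * p'' + 3 * q'' + 2 * r'' + s'' := by
  by_cases c1 : 1 ≤ p ∧ 1 ≤ s
  · exact ⟨1, 0, 0, 1, p - 1, q, r, s - 1, by omega, by omega, by omega, by omega, by omega,
      by omega, by omega, by omega⟩
  by_cases c2 : 1 ≤ q ∧ 1 ≤ r
  · exact ⟨0, 1, 1, 0, p, q - 1, r - 1, s, by omega, by omega, by omega, by omega, by omega,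
      by omega, by omega, by omega⟩
  have hs : s = 0 := by omega
  by_cases c3 : 2 ≤ q
  · exact ⟨1, 2, 0, 0, p - 1, q - 2, r, s, by omega, by omega, by omega, by omega, by omega,
      by omega, by omega, by omega⟩
  by_cases c4 : 1 ≤ q
  · exact ⟨3, 1, 0, 0, p - 3, q - 1, r, s, by omega, by omega, by omega, by omega, by omega,
      by omega, by omega, by omega⟩
  by_cases c5 : 1 ≤ r
  · exact ⟨2, 0, 1, 0, p - 2, q, r - 1, s, by omega, by omega, by omega, by omega, by omega,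
      by omega, by omega, by omega⟩
  · exact ⟨5, 0, 0, 0, p - 5, q, r, s, by omega, by omega, by omega, by omega, by omega,
      by omega, by omega, by omega⟩

theorem step5 : Step 5 := by
  intro v h0 ⟨x, hx⟩ hd hL
  have hsum : ∀ f : ZMod 5 → ℕ, ∑ x, f x = f 0 + f 1 + f 2 + f 3 + f 4 := fun f => Fin.sum_univ_five f
  have hval : (1 : ZMod 5).val = 1 ∧ (2 : ZMod 5).val = 2 ∧ (3 : ZMod 5).val = 3 ∧
      (4 : ZMod 5).val = 4 ∧ (0 : ZMod 5).val = 0 := by decide
  have hu : ∀ u : ZMod 5, u = 0 ∨ u = 1 ∨ u = 2 ∨ u = 3 ∨ u = 4 := by decide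
  have h2 := hL 2 (by decide)
  have h3 := hL 3 (by decide)
  have h4 := hL 4 (by decide)
  have m2 : (2 * 1 : ZMod 5).val = 2 ∧ (2 * 2 : ZMod 5).val = 4 ∧ (2 * 3 : ZMod 5).val = 1 ∧
      (2 * 4 : ZMod 5).val = 3 ∧ (2 * 0 : ZMod 5).val = 0 := by decide
  have m3 : (3 * 1 : ZMod 5).val = 3 ∧ (3 * 2 : ZMod 5).val = 1 ∧ (3 * 3 : ZMod 5).val = 4 ∧
      (3 * 4 : ZMod 5).val = 2 ∧ (3 * 0 : ZMod 5).val = 0 := by decide
  have m4 : (4 * 1 : ZMod 5).val = 4 ∧ (4 * 2 : ZMod 5).val = 3 ∧ (4 * 3 : ZMod 5).val = 2 ∧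
      (4 * 4 : ZMod 5).val = 1 ∧ (4 * 0 : ZMod 5).val = 0 := by decide
  obtain ⟨v1, v2, v3, v4, v0⟩ := hval
  obtain ⟨a1, a2, a3, a4, a0⟩ := m2
  obtain ⟨b1, b2, b3, b4, b0⟩ := m3
  obtain ⟨c1, c2, c3, c4, c0⟩ := m4
  simp only [hsum, v0, v1, v2, v3, v4, a0, a1, a2, a3, a4, b0, b1, b2, b3, b4, c0, c1, c2, c3, c4] at hd h2 h3 h4
  have hpos : 0 < v 1 + v 2 + v 3 + v 4 := by
    rcases hu x with rfl | rfl | rfl | rfl | rfl <;> omega
  obtain ⟨p', q', r', s', p'', q'', r'', s'', e1, e2, e3, e4, e5, e6, e7, e8⟩ :=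
    arith5 (v 1) (v 2) (v 3) (v 4) hpos (by omega) (by omega) (by omega) (by omega)
  refine ⟨(![0, p', q', r', s'] : Fin 5 → ℕ), (![0, p'', q'', r'', s''] : Fin 5 → ℕ), ?_, ?_, ?_⟩
  · intro y
    rcases hu y with rfl | rfl | rfl | rfl | rfl
    · rw [h0]; rfl
    · exact e1
    · exact e2
    · exact e3
    · exact e4
  · rw [hsum, v0, v1, v2, v3, v4]
    show 0 * 0 + p' * 1 + q' * 2 + r' * 3 + s' * 4 = 5
    omega
  · intro u hu'
    rcases hu u with rfl | rfl | rfl | rfl | rfl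
    · exact absurd hu' (by decide)
    · simp only [one_mul, le_refl]
    · rw [hsum, hsum, v0, v1, v2, v3, v4, a0, a1, a2, a3, a4]
      show 0 * 0 + p'' * 1 + q'' * 2 + r'' * 3 + s'' * 4 ≤ 0 * 0 + p'' * 2 + q'' * 4 + r'' * 1 + s'' * 3
      omega
    · rw [hsum, hsum, v0, v1, v2, v3, v4, b0, b1, b2, b3, b4]
      show 0 * 0 + p'' * 1 + q'' * 2 + r'' * 3 + s'' * 4 ≤ 0 * 0 + p'' * 3 + q'' * 1 + r'' * 4 + s'' * 2
      omega
    · rw [hsum, hsum, v0, v1, v2, v3, v4, c0, c1, c2, c3, c4]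
      show 0 * 0 + p'' * 1 + q'' * 2 + r'' * 3 + s'' * 4 ≤ 0 * 0 + p'' * 4 + q'' * 3 + r'' * 2 + s'' * 1
      omega

end Pool.Agent.Q326.ZS
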