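import Pool.Agent.Q326.ZS.Step

/-!
Degrees for which each zero-sum multiset is, up to swaps, a union of zero-sum multisets of index one.
-/

set_option autoImplicit false

namespace Pool.Agent.Q326.ZS

variable {d : ℕ} [NeZero d]

/-- `β` arises from `α` by replacing `x, y` by `x', y'` with the same sum, where also the sum of the least positive
residues of `u x, u y` and `u x', u y'` is the same for all units `u`. -/
def Swap (α β : Multiset (ZMod d)) : Prop :=
  ∃ x y x' y' : ZMod d, ∃ r : Multiset (ZMod d), α = x ::ₘ y ::ₘ r ∧ β = x' ::ₘ y' ::ₘ r ∧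
    (x ≠ 0 ∧ y ≠ 0 ∧ x' ≠ 0 ∧ y' ≠ 0) ∧ x + y = x' + y' ∧
    ∀ u : ZMod d, IsUnit u → (u * x).val + (u * y).val = (u * x').val + (u * y').val

/-- the sum of the residues of the multiples by `u` -/
def S (u : ZMod d) (v : ZMod d → ℕ) : ℕ := ∑ x, v x * (u * x).val

/-- a block of index one can be removed, or there is a swap which makes the potential `φ` smaller -/
def SStep (d : ℕ) [NeZero d] (φ : ZMod d → ℕ) : Prop :=
  ∀ v : ZMod d → ℕ, v 0 = 0 → (∃ x, v x ≠ 0) → d ∣ S 1 v → (∀ u, IsUnit u → S 1 v ≤ S u v) →
    (∃ h : ZMod d → ℕ, (∀ x, h x ≤ v x) ∧ S 1 h = d ∧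
      ∀ u, IsUnit u → ∃ c, S u h = c ∧ S 1 v + c ≤ S u v + d) ∨
    (∃ x y x' y' : ZMod d, ((x ≠ 0 ∧ y ≠ 0 ∧ x' ≠ 0 ∧ y' ≠ 0) ∧ x + y = x' + y' ∧
      (∀ u : ZMod d, IsUnit u → (u * x).val + (u * y).val = (u * x').val + (u * y').val) ∧
      φ x' + φ y' < φ x + φ y) ∧ ((x ≠ y ∧ 1 ≤ v x ∧ 1 ≤ v y) ∨ (x = y ∧ 2 ≤ v x)))

lemma Swap.add {α β : Multiset (ZMod d)} (h : Swap α β) (γ : Multiset (ZMod d)) :
    Swap (γ + α) (γ + β) := by
  obtain ⟨x, y, x', y', r, rfl, rfl, h1, h2, h3⟩ := h
  exact ⟨x, y, x', y', γ + r, by rw [Multiset.add_cons, Multiset.add_cons],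
    by rw [Multiset.add_cons, Multiset.add_cons], h1, h2, h3⟩

lemma Swap.map {α β : Multiset (ZMod d)} (h : Swap α β) {u : ZMod d} (hu : IsUnit u) :
    Swap (α.map fun a => u * a) (β.map fun a => u * a) := by
  obtain ⟨x, y, x', y', r, rfl, rfl, h1, h2, h3⟩ := h
  have hne : ∀ z : ZMod d, z ≠ 0 → u * z ≠ 0 := fun z hz h => hz (hu.mul_right_eq_zero.mp h)
  refine ⟨u * x, u * y, u * x', u * y', r.map fun a => u * a, ?_, ?_,
    ⟨hne _ h1.1, hne _ h1.2.1, hne _ h1.2.2.1, hne _ h1.2.2.2⟩, ?_, ?_⟩
  · rw [Multiset.map_cons, Multiset.map_cons]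
  · rw [Multiset.map_cons, Multiset.map_cons]
  · rw [← mul_add, ← mul_add, h2]
  · intro t ht
    have := h3 (t * u) (ht.mul hu)
    rwa [mul_assoc, mul_assoc, mul_assoc, mul_assoc] at this

lemma S_count (u : ZMod d) (α : Multiset (ZMod d)) :
    S u (fun x => α.count x) = (α.map fun a => (u * a).val).sum := (sum_count α _).symm

lemma S_one_count (α : Multiset (ZMod d)) :
    S 1 (fun x => α.count x) = (α.map ZMod.val).sum := by
  rw [S_count]
  congr 1
  refine Multiset.map_congr rfl fun y _ => ?_
  rw [one_mul]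

lemma S_add (u : ZMod d) (v w : ZMod d → ℕ) : S u (fun x => v x + w x) = S u v + S u w := by
  unfold S
  rw [← Finset.sum_add_distrib]
  exact Finset.sum_congr rfl fun x _ => add_mul _ _ _

lemma blocks_of_sstep {φ : ZMod d → ℕ} (hφ : ∀ x : ZMod d, x ≠ 0 → 0 < φ x) (hstep : SStep d φ) :
    ∀ n : ℕ, ∀ α : Multiset (ZMod d), (α.map φ).sum = n →
    (0 : ZMod d) ∉ α → α.sum = 0 →
    (∀ u : ZMod d, IsUnit u → (α.map ZMod.val).sum ≤ (α.map fun a => (u * a).val).sum) →
    ∃ β B, Relation.ReflTransGen Swap α β ∧ Dec β B ∧ (α.map ZMod.val).sum = Multiset.card B * d := by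
  intro n
  induction n using Nat.strong_induction_on with
  | _ n ih =>
    intro α hn h0 hs hL
    by_cases hα : α = 0
    · subst hα
      exact ⟨0, 0, Relation.ReflTransGen.refl,
        ⟨fun b hb => absurd hb (Multiset.notMem_zero b), Multiset.sum_zero⟩, by simp⟩
    · obtain ⟨x, hx⟩ := Multiset.exists_mem_of_ne_zero hα
      have hdvd : d ∣ S 1 (fun x => α.count x) := by
        rw [S_one_count, ← ZMod.natCast_eq_zero_iff, sum_val_cast, hs]
      rcases hstep (fun x => α.count x) (Multiset.count_eq_zero_of_notMem h0)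
        ⟨x, (Multiset.count_pos.mpr hx).ne'⟩ hdvd (by
          intro u hu
          rw [S_one_count, S_count]
          exact hL u hu) with ⟨h, hle, hd, hu⟩ | ⟨x, y, x', y', ⟨hxy0, hxys, hxyu, hφxy⟩, hc⟩
      · -- remove a block
        have hsplit : α = mk h + mk (fun x => α.count x - h x) := by
          ext y
          rw [Multiset.count_add, count_mk, count_mk]
          have := hle y
          omega
        set w' : ZMod d → ℕ := fun x => α.count x - h x with hw'
        have hwsum : ((mk h).map ZMod.val).sum = d := by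
          rw [← S_one_count]
          have : (fun x => (mk h).count x) = h := funext (count_mk h)
          rw [this, hd]
        have hw0 : (mk h).sum = 0 := by
          rw [← sum_val_cast, hwsum, ZMod.natCast_self]
        have hwne : mk h ≠ 0 := by
          intro h'
          rw [h', Multiset.map_zero, Multiset.sum_zero] at hwsum
          exact NeZero.ne d hwsum.symm
        have h0h : (0 : ZMod d) ∉ mk h := by
          intro h'
          apply h0
          rw [hsplit]
          exact Multiset.mem_add.mpr (Or.inl h')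
        have h0' : (0 : ZMod d) ∉ mk w' := by
          intro h'
          apply h0
          rw [hsplit]
          exact Multiset.mem_add.mpr (Or.inr h')
        have hc : ((mk w').map φ).sum < n := by
          obtain ⟨z, hz⟩ := Multiset.exists_mem_of_ne_zero hwne
          have h1 : φ z ≤ ((mk h).map φ).sum := Multiset.le_sum_of_mem (Multiset.mem_map_of_mem _ hz)
          have h2 := hφ z (fun h' => h0h (h' ▸ hz))
          rw [hsplit, Multiset.map_add, Multiset.sum_add] at hn
          omega
        have hs' : (mk w').sum = 0 := by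
          rw [hsplit, Multiset.sum_add, hw0, zero_add] at hs
          exact hs
        obtain ⟨β, B, hβ, hB, hBs⟩ := ih _ hc (mk w') rfl h0' hs' (by
          intro u hu'
          obtain ⟨c, hc1, hc2⟩ := hu u hu'
          have hv : (fun x => α.count x) = fun x => h x + w' x := by
            funext x
            have := hle x
            rw [hw']
            simp only
            omega
          rw [hv, S_add, S_add, hd, hc1] at hc2
          have hw : (fun x => (mk w').count x) = w' := funext (count_mk w')
          rw [← S_one_count, ← S_count, hw]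
          omega)
        refine ⟨mk h + β, mk h ::ₘ B, ?_, ⟨fun b hb => ?_, ?_⟩, ?_⟩
        · rw [hsplit]
          have hadd : ∀ γ, Relation.ReflTransGen Swap (mk w') γ →
              Relation.ReflTransGen Swap (mk h + mk w') (mk h + γ) := by
            intro γ hγ
            induction hγ with
            | refl => exact Relation.ReflTransGen.refl
            | tail _ h2 ih2 => exact ih2.tail (h2.add _)
          exact hadd β hβ
        · rcases Multiset.mem_cons.mp hb with rfl | hb
          · exact ⟨hwne, hw0⟩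
          · exact hB.1 b hb
        · rw [Multiset.sum_cons, hB.2]
        · rw [hsplit, Multiset.map_add, Multiset.sum_add, hwsum, hBs, Multiset.card_cons, add_mul,
            one_mul, add_comm]
      · -- swap
        have hr : ∃ r, α = x ::ₘ y ::ₘ r := by
          rcases hc with ⟨hne, hcx, hcy⟩ | ⟨rfl, hcx⟩
          · obtain ⟨r1, rfl⟩ := Multiset.exists_cons_of_mem (Multiset.count_pos.mp hcx)
            rw [Multiset.count_cons_of_ne (Ne.symm hne)] at hcy
            obtain ⟨r, rfl⟩ := Multiset.exists_cons_of_mem (Multiset.count_pos.mp hcy)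
            exact ⟨r, rfl⟩
          · obtain ⟨r1, rfl⟩ := Multiset.exists_cons_of_mem
              (Multiset.count_pos.mp (lt_of_lt_of_le (by norm_num) hcx))
            rw [Multiset.count_cons_self] at hcx
            obtain ⟨r, rfl⟩ := Multiset.exists_cons_of_mem
              (Multiset.count_pos.mp (show 0 < r1.count x by omega))
            exact ⟨r, rfl⟩
        obtain ⟨r, rfl⟩ := hr
        have hval : ∀ u : ZMod d, IsUnit u →
            ((x ::ₘ y ::ₘ r).map fun a => (u * a).val).sum =
              ((x' ::ₘ y' ::ₘ r).map fun a => (u * a).val).sum := by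
          intro u hu
          rw [Multiset.map_cons, Multiset.map_cons, Multiset.map_cons, Multiset.map_cons,
            Multiset.sum_cons, Multiset.sum_cons, Multiset.sum_cons, Multiset.sum_cons,
            ← add_assoc, ← add_assoc, hxyu u hu]
        have hval1 : ((x ::ₘ y ::ₘ r).map ZMod.val).sum = ((x' ::ₘ y' ::ₘ r).map ZMod.val).sum := by
          have h1 := hval 1 isUnit_one
          simp only [one_mul] at h1
          exact h1
        rw [Multiset.map_cons, Multiset.map_cons, Multiset.sum_cons, Multiset.sum_cons] at hn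
        obtain ⟨β, B, hβ, hB, hBs⟩ := ih (φ x' + (φ y' + (r.map φ).sum)) (by omega)
          (x' ::ₘ y' ::ₘ r) (by
            rw [Multiset.map_cons, Multiset.map_cons, Multiset.sum_cons, Multiset.sum_cons])
          (by
            intro h'
            rcases Multiset.mem_cons.mp h' with h' | h'
            · exact hxy0.2.2.1 h'.symm
            rcases Multiset.mem_cons.mp h' with h' | h'
            · exact hxy0.2.2.2 h'.symm
            · exact h0 (Multiset.mem_cons_of_mem (Multiset.mem_cons_of_mem h')))
          (by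
            rw [Multiset.sum_cons, Multiset.sum_cons, ← add_assoc, ← hxys, add_assoc,
              ← Multiset.sum_cons, ← Multiset.sum_cons, hs])
          (by
            intro u hu
            rw [← hval u hu, ← hval1]
            exact hL u hu)
        refine ⟨β, B, Relation.ReflTransGen.head ⟨x, y, x', y', r, rfl, rfl, hxy0, hxys, hxyu⟩ hβ,
          hB, ?_⟩
        rw [hval1, hBs]

/-- **Degrees with `SStep`.** If all multiples of `α` by units have residues with sum at least `(k + 1) d`, then `α` is
up to swaps a union of at least `k + 1` nonempty multisets with sum zero. -/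
theorem splits_of_sstep {φ : ZMod d → ℕ} (hφ : ∀ x : ZMod d, x ≠ 0 → 0 < φ x) (hstep : SStep d φ)
    {α : Multiset (ZMod d)} (h0 : (0 : ZMod d) ∉ α)
    (hs : α.sum = 0) {k : ℕ}
    (hk : ∀ u : ZMod d, IsUnit u → (k + 1) * d ≤ (α.map fun a => (u * a).val).sum) :
    ∃ β B, Relation.ReflTransGen Swap α β ∧ Dec β B ∧ k + 1 ≤ Multiset.card B := by
  classical
  have hne : ((Finset.univ : Finset (ZMod d)).filter fun u => IsUnit u).Nonempty :=
    ⟨1, by simp⟩
  obtain ⟨u, hu, hmin⟩ := Finset.exists_min_image _
    (fun u : ZMod d => (α.map fun a => (u * a).val).sum) hne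
  rw [Finset.mem_filter] at hu
  have hu1 := hu.2
  obtain ⟨u', hu'⟩ := hu1.exists_left_inv
  have hu'1 : IsUnit u' := IsUnit.of_mul_eq_one u hu'
  set β := α.map (fun a => u * a) with hβ
  have hβα : β.map (fun a => u' * a) = α := by
    rw [hβ, Multiset.map_map]
    conv_rhs => rw [← Multiset.map_id α]
    refine Multiset.map_congr rfl fun y _ => ?_
    rw [Function.comp_apply, ← mul_assoc, hu', one_mul, id]
  have hβ0 : (0 : ZMod d) ∉ β := by
    intro h
    obtain ⟨a, ha, hau⟩ := Multiset.mem_map.mp h
    exact h0 ((hu1.mul_right_eq_zero.mp hau) ▸ ha)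
  have hβs : β.sum = 0 := by
    rw [hβ, Multiset.sum_map_mul_left, Multiset.map_id', hs, mul_zero]
  have h2 : (α.map fun a => (u * a).val).sum = (β.map ZMod.val).sum := by
    rw [hβ, Multiset.map_map]
    rfl
  have hβL : ∀ t : ZMod d, IsUnit t →
      (β.map ZMod.val).sum ≤ (β.map fun a => (t * a).val).sum := by
    intro t ht
    have h1 := hmin (t * u) (Finset.mem_filter.mpr ⟨Finset.mem_univ _, ht.mul hu1⟩)
    rw [← h2]
    refine h1.trans (le_of_eq ?_)
    rw [hβ, Multiset.map_map]
    congr 1
    refine Multiset.map_congr rfl fun y _ => ?_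
    rw [Function.comp_apply, mul_assoc]
  obtain ⟨γ, B, hγ, hB, hBs⟩ := blocks_of_sstep hφ hstep _ β rfl hβ0 hβs hβL
  refine ⟨γ.map (fun a => u' * a), B.map (Multiset.map fun a => u' * a), ?_,
    ⟨fun b hb => ?_, ?_⟩, ?_⟩
  · have hmap : ∀ δ, Relation.ReflTransGen Swap β δ →
        Relation.ReflTransGen Swap (β.map fun a => u' * a) (δ.map fun a => u' * a) := by
      intro δ hδ
      induction hδ with
      | refl => exact Relation.ReflTransGen.refl
      | tail _ h2 ih2 => exact ih2.tail (h2.map hu'1)
    have := hmap γ hγ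
    rwa [hβα] at this
  · obtain ⟨c, hc, rfl⟩ := Multiset.mem_map.mp hb
    refine ⟨fun h => (hB.1 c hc).1 (Multiset.map_eq_zero.mp h), ?_⟩
    rw [Multiset.sum_map_mul_left, Multiset.map_id', (hB.1 c hc).2, mul_zero]
  · rw [← hB.2]
    exact (Multiset.mapAddMonoidHom fun a => u' * a).map_multiset_sum B |>.symm
  · rw [Multiset.card_map]
    have h1 := hk u hu1
    rw [h2, hBs] at h1
    exact Nat.le_of_mul_le_mul_right h1 (NeZero.pos d)

end Pool.Agent.Q326.ZS
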